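import Mathlib

namespace Pool.Agent.Results.MP_7523ff_co.Disproof

open SimpleGraph Matrix Pointwise

open Classical in
/-- The spectral radius (largest eigenvalue of the adjacency matrix) of a graph on `Fin n`. -/
noncomputable def specRad {n : ℕ} (G : SimpleGraph (Fin n)) : ℝ :=
  sSup (spectrum ℝ (G.adjMatrix ℝ))

/-- The class of connected graphs with vertex set `Fin n` and exactly `m` edges. -/
def ConnGraphs (n m : ℕ) : Set (SimpleGraph (Fin n)) :=
  {G | G.Connected ∧ G.edgeSet.ncard = m}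

/-- `G` has the smallest spectral radius among the connected graphs with `n` vertices and
`m` edges. -/
def IsMinimizer (n m : ℕ) (G : SimpleGraph (Fin n)) : Prop :=
  G ∈ ConnGraphs n m ∧ ∀ H ∈ ConnGraphs n m, specRad G ≤ specRad H

open Classical in
theorem adj_herm {n : ℕ} (G : SimpleGraph (Fin n)) : (G.adjMatrix ℝ).IsHermitian := by
  rw [Matrix.IsHermitian, Matrix.conjTranspose_eq_transpose_of_trivial]
  exact SimpleGraph.transpose_adjMatrix (α := ℝ) (G := G)

open Classical in
theorem spec_finite {n : ℕ} (G : SimpleGraph (Fin n)) :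
    (spectrum ℝ (G.adjMatrix ℝ)).Finite := by
  rw [(adj_herm G).spectrum_real_eq_range_eigenvalues]
  exact Set.finite_range _

open Classical in
/-- Sanity check: `specRad G` is the largest eigenvalue. -/
theorem specRad_isGreatest {n : ℕ} [NeZero n] (G : SimpleGraph (Fin n)) :
    IsGreatest (spectrum ℝ (G.adjMatrix ℝ)) (specRad G) := by
  have hne : (spectrum ℝ (G.adjMatrix ℝ)).Nonempty := by
    rw [(adj_herm G).spectrum_real_eq_range_eigenvalues]
    exact Set.range_nonempty _
  exact ⟨hne.csSup_mem (spec_finite G), fun x hx => le_csSup (spec_finite G).bddAbove hx⟩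

open Classical in
theorem herm_sub {n : ℕ} (G : SimpleGraph (Fin n)) (l : ℝ) :
    (l • (1 : Matrix (Fin n) (Fin n) ℝ) - G.adjMatrix ℝ).IsHermitian := by
  apply Matrix.IsHermitian.sub _ (adj_herm G)
  rw [Matrix.IsHermitian, Matrix.conjTranspose_smul]
  simp

open Classical in
/-- If all eigenvalues are at most `l` then `l - A` is positive semidefinite. -/
theorem psd_of_le {n : ℕ} (G : SimpleGraph (Fin n)) (l : ℝ) (hl : specRad G ≤ l) :
    (l • (1 : Matrix (Fin n) (Fin n) ℝ) - G.adjMatrix ℝ).PosSemidef := by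
  rw [(herm_sub G l).posSemidef_iff_eigenvalues_nonneg]
  intro i
  have h := (herm_sub G l).eigenvalues_mem_spectrum_real i
  have h2 : spectrum ℝ (l • (1 : Matrix (Fin n) (Fin n) ℝ) - G.adjMatrix ℝ)
      = ({l} : Set ℝ) - spectrum ℝ (G.adjMatrix ℝ) := by
    rw [spectrum.singleton_sub_eq, Algebra.algebraMap_eq_smul_one]
  rw [h2] at h
  obtain ⟨a, ha, b, hb, hab⟩ := h
  have hb' : b ≤ specRad G := le_csSup (spec_finite G).bddAbove hb
  rw [Set.mem_singleton_iff] at ha
  change (0:ℝ) ≤ (herm_sub G l).eigenvalues i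
  rw [← hab, ha]
  simp only
  linarith

open Classical in
/-- Conversely, if `l - A` is positive semidefinite then the spectral radius is at most `l`. -/
theorem le_of_psd {n : ℕ} [NeZero n] (G : SimpleGraph (Fin n)) (l : ℝ)
    (h : (l • (1 : Matrix (Fin n) (Fin n) ℝ) - G.adjMatrix ℝ).PosSemidef) : specRad G ≤ l := by
  have h1 := (specRad_isGreatest G).1
  have h2 : l - specRad G ∈ spectrum ℝ (l • (1 : Matrix (Fin n) (Fin n) ℝ) - G.adjMatrix ℝ) := by
    have : spectrum ℝ (l • (1 : Matrix (Fin n) (Fin n) ℝ) - G.adjMatrix ℝ)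
      = ({l} : Set ℝ) - spectrum ℝ (G.adjMatrix ℝ) := by
      rw [spectrum.singleton_sub_eq, Algebra.algebraMap_eq_smul_one]
    rw [this]
    exact ⟨l, rfl, _, h1, rfl⟩
  rw [(herm_sub G l).spectrum_real_eq_range_eigenvalues] at h2
  obtain ⟨i, hi⟩ := h2
  have h3 := (herm_sub G l).posSemidef_iff_eigenvalues_nonneg.mp h i
  rw [hi] at h3
  simp at h3
  linarith

open Classical in
/-- Quadratic form of `l - A` at the all ones vector. -/
theorem quad_ones {n : ℕ} (G : SimpleGraph (Fin n)) (l : ℝ) :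
    (fun _ => (1:ℝ)) ⬝ᵥ ((l • (1 : Matrix (Fin n) (Fin n) ℝ) - G.adjMatrix ℝ) *ᵥ (fun _ => (1:ℝ)))
      = l * n - 2 * (G.edgeSet.ncard : ℝ) := by
  have hdeg : ∀ v, (G.adjMatrix ℝ *ᵥ (fun _ => (1:ℝ))) v = G.degree v := by
    intro v
    simp [SimpleGraph.adjMatrix_mulVec_apply]
  have hsum : (∑ v, (G.degree v : ℝ)) = 2 * (G.edgeSet.ncard : ℝ) := by
    have := G.sum_degrees_eq_twice_card_edges
    have h3 : G.edgeSet.ncard = G.edgeFinset.card := by
      rw [Set.ncard_eq_toFinset_card', SimpleGraph.edgeFinset]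
    rw [h3]
    exact_mod_cast this
  rw [Matrix.sub_mulVec, dotProduct_sub]
  congr 1
  · simp [dotProduct, Matrix.smul_mulVec]
    ring
  · simp only [dotProduct, one_mul]
    rw [← hsum]
    exact Finset.sum_congr rfl fun v _ => hdeg v

open Classical in
/-- Lower bound for the spectral radius by the average degree, with the equality case. -/
theorem avg_le {n : ℕ} (G : SimpleGraph (Fin n)) :
    2 * (G.edgeSet.ncard : ℝ) ≤ specRad G * n := by
  have h := (psd_of_le G (specRad G) le_rfl).dotProduct_mulVec_nonneg (fun _ => (1:ℝ))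
  have h2 := quad_ones G (specRad G)
  have h3 : star (fun _ : Fin n => (1:ℝ)) = fun _ => (1:ℝ) := by
    ext; simp
  rw [h3, h2] at h
  linarith

open Classical in
theorem regular_of_eq {n : ℕ} (G : SimpleGraph (Fin n)) (d : ℕ)
    (hd : specRad G ≤ d) (hm : 2 * G.edgeSet.ncard = d * n) : ∀ v, G.degree v = d := by
  intro v
  have hp := psd_of_le G d hd
  have h3 : star (fun _ : Fin n => (1:ℝ)) = fun _ => (1:ℝ) := by
    ext; simp
  have h0 := (hp.dotProduct_mulVec_zero_iff (fun _ => (1:ℝ))).mp (by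
    rw [h3, quad_ones]
    have : (2 * (G.edgeSet.ncard : ℝ)) = d * n := by exact_mod_cast hm
    linarith)
  have h4 := congrFun h0 v
  rw [Matrix.sub_mulVec] at h4
  simp [Matrix.smul_mulVec, SimpleGraph.adjMatrix_mulVec_apply] at h4
  have h5 : (d : ℝ) = G.degree v := by linarith
  exact_mod_cast h5.symm

open Classical in
/-- A regular graph of positive degree on an odd number of vertices is not 2-colorable. -/
theorem not_two_colorable {n : ℕ} (hn : Odd n) (G : SimpleGraph (Fin n)) (d : ℕ) (hd : 0 < d)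
    (h : ∀ v, G.degree v = d) : ¬ G.Colorable 2 := by
  rintro ⟨C⟩
  let s : Finset (Fin n) := Finset.univ.filter (fun v => C v = 0)
  let t : Finset (Fin n) := Finset.univ.filter (fun v => C v = 1)
  have hst : G.IsBipartiteWith (s : Set (Fin n)) (t : Set (Fin n)) := by
    constructor
    · rw [Finset.disjoint_coe, Finset.disjoint_filter]
      intro x _ h1 h2
      rw [h1] at h2
      exact absurd h2 (by decide)
    · intro v w hvw
      have hne := C.valid hvw
      have h01 : ∀ x : Fin 2, x = 0 ∨ x = 1 := by decide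
      simp only [s, t, Finset.coe_filter, Finset.mem_univ, true_and, Set.mem_ofPred_eq]
      rcases h01 (C v) with h1 | h1 <;> rcases h01 (C w) with h2 | h2
      · exact absurd (h1.trans h2.symm) hne
      · exact Or.inl ⟨h1, h2⟩
      · exact Or.inr ⟨h1, h2⟩
      · exact absurd (h1.trans h2.symm) hne
  have hsum := isBipartiteWith_sum_degrees_eq hst
  simp only [h, Finset.sum_const, smul_eq_mul] at hsum
  have hcard : s.card = t.card := Nat.eq_of_mul_eq_mul_right hd hsum
  have htot : s.card + t.card = n := by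
    have hdisj : Disjoint s t := by
      rw [Finset.disjoint_filter]
      intro x _ h1 h2
      rw [h1] at h2
      exact absurd h2 (by decide)
    rw [← Finset.card_union_of_disjoint hdisj]
    have : s ∪ t = Finset.univ := by
      ext v
      have h01 : ∀ x : Fin 2, x = 0 ∨ x = 1 := by decide
      simp only [s, t, Finset.mem_union, Finset.mem_filter, Finset.mem_univ, true_and, iff_true]
      exact h01 (C v)
    rw [this, Finset.card_univ, Fintype.card_fin]
  rw [hcard] at htot
  rcases hn with ⟨k, hk⟩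
  omega

/-- The circulant graph on `4k+1` vertices with jumps `1, …, k`. -/
def circ (k : ℕ) : SimpleGraph (Fin (4 * k + 1)) :=
  SimpleGraph.circulantGraph {j : Fin (4 * k + 1) | 1 ≤ j.val ∧ j.val ≤ k}

open Classical in
theorem circ_degree (k : ℕ) (v : Fin (4 * k + 1)) : (circ k).degree v = 2 * k := by
  let S : Finset (Fin (4 * k + 1)) :=
    Finset.univ.filter (fun j => (1 ≤ j.val ∧ j.val ≤ k) ∨ 3 * k + 1 ≤ j.val)
  have hneg : ∀ j : Fin (4 * k + 1), j ≠ 0 → (-j).val = 4 * k + 1 - j.val := by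
    intro j hj
    rw [Fin.val_neg]
    simp [hj]
  have hnb : (circ k).neighborFinset v = S.map (addLeftEmbedding v) := by
    ext w
    rw [SimpleGraph.mem_neighborFinset]
    simp only [circ, SimpleGraph.circulantGraph_adj, Set.mem_ofPred_eq, Finset.mem_map, S,
      Finset.mem_filter, Finset.mem_univ, true_and, addLeftEmbedding_apply]
    constructor
    · rintro ⟨hvw, hj⟩
      refine ⟨w - v, ?_, by abel⟩
      rcases hj with hj | hj
      · right
        have h1 : w - v = -(v - w) := by abel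
        have h0 : v - w ≠ 0 := sub_ne_zero.mpr hvw
        rw [h1, hneg _ h0]
        omega
      · left
        exact hj
    · rintro ⟨j, hj, rfl⟩
      have hj0 : j ≠ 0 := by
        rintro rfl
        simp at hj
      refine ⟨fun h => hj0 (by simpa using h.symm), ?_⟩
      have e1 : v - (v + j) = -j := by abel
      have e2 : v + j - v = j := by abel
      rw [e1, e2, hneg _ hj0]
      have := j.isLt
      omega
  rw [← SimpleGraph.card_neighborFinset_eq_degree, hnb, Finset.card_map]
  have hS : S.map Fin.valEmbedding = Finset.Icc 1 k ∪ Finset.Icc (3 * k + 1) (4 * k) := by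
    ext x
    simp only [S, Finset.mem_map, Finset.mem_filter, Finset.mem_univ, true_and,
      Fin.valEmbedding_apply, Finset.mem_union, Finset.mem_Icc]
    constructor
    · rintro ⟨j, hj, rfl⟩
      have := j.isLt
      omega
    · intro hx
      refine ⟨⟨x, by omega⟩, ?_, rfl⟩
      simp only
      omega
  rw [← Finset.card_map Fin.valEmbedding, hS, Finset.card_union_of_disjoint, Nat.card_Icc,
    Nat.card_Icc]
  · omega
  · rw [Finset.disjoint_left]
    intro x h1 h2
    rw [Finset.mem_Icc] at h1 h2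
    omega

open Classical in
theorem circ_edges (k : ℕ) : (circ k).edgeSet.ncard = (4 * k + 1) * k := by
  have h := (circ k).sum_degrees_eq_twice_card_edges
  have h3 : (circ k).edgeSet.ncard = (circ k).edgeFinset.card := by
    rw [Set.ncard_eq_toFinset_card', SimpleGraph.edgeFinset]
  simp only [circ_degree, Finset.sum_const, Finset.card_univ, Fintype.card_fin, smul_eq_mul] at h
  rw [← h3] at h
  have h5 : (4 * k + 1) * (2 * k) = 2 * ((4 * k + 1) * k) := by ring
  omega

theorem circ_connected (k : ℕ) (hk : 1 ≤ k) : (circ k).Connected := by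
  have h1 : (cycleGraph (4 * k + 1)).Connected := by
    exact SimpleGraph.cycleGraph_connected
  refine h1.mono ?_
  rw [SimpleGraph.cycleGraph_eq_circulantGraph]
  intro v w hvw
  have hone : ∀ x : Fin (4 * k + 1), x = 1 → 1 ≤ x.val ∧ x.val ≤ k := by
    rintro x rfl
    have h2 : ((1 : Fin (4 * k + 1)) : ℕ) = 1 := by
      rw [Fin.val_one']
      exact Nat.mod_eq_of_lt (by omega)
    rw [h2]
    omega
  rw [SimpleGraph.circulantGraph_adj] at hvw
  rw [circ, SimpleGraph.circulantGraph_adj]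
  refine ⟨hvw.1, ?_⟩
  rcases hvw.2 with h | h
  · exact Or.inl (hone _ h)
  · exact Or.inr (hone _ h)

open Classical in
theorem circ_specRad_le (k : ℕ) : specRad (circ k) ≤ (2 * k : ℕ) := by
  apply le_of_psd
  have h := SimpleGraph.posSemidef_lapMatrix ℝ (circ k)
  have h2 : (circ k).lapMatrix ℝ =
      ((2 * k : ℕ) : ℝ) • (1 : Matrix (Fin (4 * k + 1)) (Fin (4 * k + 1)) ℝ)
        - (circ k).adjMatrix ℝ := by
    rw [SimpleGraph.lapMatrix]
    congr 1
    rw [SimpleGraph.degMatrix]
    ext i j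
    simp [circ_degree, Matrix.diagonal_apply, Matrix.one_apply]
  rw [← h2]
  exact h

theorem circ_mem (k : ℕ) (hk : 1 ≤ k) : circ k ∈ ConnGraphs (4 * k + 1) ((4 * k + 1) * k) :=
  ⟨circ_connected k hk, circ_edges k⟩

theorem circ_minimizer (k : ℕ) (hk : 1 ≤ k) :
    IsMinimizer (4 * k + 1) ((4 * k + 1) * k) (circ k) := by
  refine ⟨circ_mem k hk, ?_⟩
  intro H hH
  have h1 := avg_le H
  rw [hH.2] at h1
  have h2 := circ_specRad_le k
  push_cast at h1 h2
  have h3 : (0:ℝ) < 4 * k + 1 := by positivity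
  have h4 : (2 * (k:ℝ)) * (4 * k + 1) ≤ specRad H * (4 * k + 1) := by linarith
  have h5 := le_of_mul_le_mul_right h4 h3
  linarith

theorem minimizer_not_colorable (k : ℕ) (hk : 1 ≤ k) (G : SimpleGraph (Fin (4 * k + 1)))
    (hG : IsMinimizer (4 * k + 1) ((4 * k + 1) * k) G) : ¬ G.Colorable 2 := by
  classical
  have h1 : specRad G ≤ (2 * k : ℕ) := (hG.2 _ (circ_mem k hk)).trans (circ_specRad_le k)
  have h2 := regular_of_eq G (2 * k) h1 (by rw [hG.1.2]; ring)
  exact not_two_colorable ⟨2 * k, by ring⟩ G (2 * k) (by omega) h2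

/-- Number of edges of the Turan graph with `n` vertices and `k` parts (`k ≥ 1`). -/
def turanEdges (n k : ℕ) : ℕ := (turanGraph n k).edgeFinset.card

/-- `r` is the integer `r(n,m)`, i.e. `r ≥ 2` and `e(T_{n,r-1}) < m ≤ e(T_{n,r})`. -/
def IsTuranIndex (n m r : ℕ) : Prop :=
  2 ≤ r ∧ turanEdges n (r - 1) < m ∧ m ≤ turanEdges n r

theorem turanEdges_one (n : ℕ) : turanEdges n 1 = 0 := by
  rw [turanEdges, SimpleGraph.card_edgeFinset_turanGraph, Nat.mod_one]
  simp

theorem turanEdges_two (k : ℕ) : turanEdges (4 * k + 1) 2 = 4 * k ^ 2 + 2 * k := by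
  rw [turanEdges, SimpleGraph.card_edgeFinset_turanGraph]
  have h1 : (4 * k + 1) % 2 = 1 := by omega
  rw [h1]
  have h2 : ((4 * k + 1) ^ 2 - 1 ^ 2) * (2 - 1) = 8 * (2 * k ^ 2 + k) := by
    have : (4 * k + 1) ^ 2 = 8 * (2 * k ^ 2 + k) + 1 := by ring
    omega
  rw [h2]
  simp
  have : 8 * (2 * k ^ 2 + k) = 4 * (4 * k ^ 2 + 2 * k) := by ring
  omega

theorem result (α : ℝ) (_hα0 : 0 < α) (hα2 : α < 2) (c : ℝ) (_hc : 0 < c) (n₀ : ℕ) :
    ∃ n m : ℕ, n₀ ≤ n ∧ c * (n : ℝ) ^ α ≤ (m : ℝ) ∧ m ≤ n.choose 2 ∧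
      IsTuranIndex n m 2 ∧
      (∃ G : SimpleGraph (Fin n), IsMinimizer n m G) ∧
      ∀ G : SimpleGraph (Fin n), IsMinimizer n m G → ¬ G.Colorable 2 := by
  have hlim := tendsto_rpow_atTop (y := 2 - α) (by linarith)
  obtain ⟨X, hX⟩ := (Filter.tendsto_atTop_atTop.mp hlim) (5 * c)
  let k : ℕ := max 1 (max n₀ ⌈X⌉₊)
  have hk1 : 1 ≤ k := le_max_left _ _
  have hk2 : n₀ ≤ k := (le_max_left _ _).trans (le_max_right _ _)
  have hk3 : X ≤ (k : ℝ) := (Nat.le_ceil X).trans (by
    exact_mod_cast (le_max_right n₀ ⌈X⌉₊).trans (le_max_right 1 _))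
  refine ⟨4 * k + 1, (4 * k + 1) * k, by omega, ?_, ?_, ⟨le_rfl, ?_, ?_⟩,
    ⟨circ k, circ_minimizer k hk1⟩, fun G hG => minimizer_not_colorable k hk1 G hG⟩
  · have hnpos : (0 : ℝ) < ((4 * k + 1 : ℕ) : ℝ) := by positivity
    have hkk : (1:ℝ) ≤ (k : ℝ) := by exact_mod_cast hk1
    have hXn : X ≤ ((4 * k + 1 : ℕ) : ℝ) := by
      push_cast
      linarith
    have h1 := hX _ hXn
    have h2 : ((4 * k + 1 : ℕ) : ℝ) ^ (2 - α) * ((4 * k + 1 : ℕ) : ℝ) ^ α
        = ((4 * k + 1 : ℕ) : ℝ) ^ (2 : ℝ) := by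
      rw [← Real.rpow_add hnpos]
      congr 1
      ring
    have h3 : (0 : ℝ) ≤ ((4 * k + 1 : ℕ) : ℝ) ^ α := by positivity
    have h4 := mul_le_mul_of_nonneg_right h1 h3
    rw [h2, Real.rpow_two] at h4
    have h5 : c * ((4 * k + 1 : ℕ) : ℝ) ^ α ≤ ((4 * k + 1 : ℕ) : ℝ) ^ 2 / 5 := by linarith
    refine h5.trans ?_
    push_cast
    nlinarith
  · rw [Nat.choose_two_right]
    have : (4 * k + 1) * (4 * k + 1 - 1) / 2 = (4 * k + 1) * (2 * k) := by
      rw [Nat.add_sub_cancel]
      apply Nat.div_eq_of_eq_mul_left (by norm_num)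
      ring
    rw [this]
    exact Nat.mul_le_mul_left _ (by omega)
  · show turanEdges (4 * k + 1) (2 - 1) < (4 * k + 1) * k
    rw [show 2 - 1 = 1 from rfl, turanEdges_one]
    positivity
  · rw [turanEdges_two]
    nlinarith

end Pool.Agent.Results.MP_7523ff_co.Disproof
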